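import Pool.Agent.Helper1.DubProd.Rank

/-!
# The generic rank of block diagonal matrices and of congruent matrices

The rank of a block diagonal matrix is the sum of the ranks of the blocks, over a field and, for
the generic rank, over a domain; congruence by a matrix with a right inverse keeps the generic
rank.
-/

open scoped BigOperators
open Finset

namespace Pool.Agent.SFX

open Pool.Agent.Helper1.DubProd

private theorem isUnit_det_blockDiagonal' {K : Type} [Field K] {J : Type} [Fintype J]
    [DecidableEq J] {κ : J → Type} [∀ j, Fintype (κ j)] [∀ j, DecidableEq (κ j)]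
    (P : ∀ j, Matrix (κ j) (κ j) K) (hP : ∀ j, IsUnit (P j).det) :
    IsUnit (Matrix.blockDiagonal' P).det := by
  rw [← Matrix.isUnit_iff_isUnit_det]
  have h1 : Matrix.blockDiagonal' P * Matrix.blockDiagonal' (fun j => (P j)⁻¹) = 1 := by
    rw [← Matrix.blockDiagonal'_mul]
    have h2 : (fun j => P j * (P j)⁻¹) = fun j => (1 : Matrix (κ j) (κ j) K) :=
      funext fun j => Matrix.mul_nonsing_inv _ (hP j)
    rw [h2]
    exact Matrix.blockDiagonal'_one
  exact IsUnit.of_mul_eq_one _ h1

theorem rank_blockDiagonal' {K : Type} [Field K] {J : Type} [Fintype J] [DecidableEq J]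
    {κ : J → Type} [∀ j, Fintype (κ j)] [∀ j, DecidableEq (κ j)]
    (M : ∀ j, Matrix (κ j) (κ j) K) : (Matrix.blockDiagonal' M).rank = ∑ j, (M j).rank := by
  classical
  choose P Q D hP hQ hM using fun j => exists_diag (M j)
  have h1 : Matrix.blockDiagonal' M = Matrix.blockDiagonal' P *
      Matrix.diagonal (fun x : (Σ j, κ j) => D x.1 x.2) * Matrix.blockDiagonal' Q := by
    rw [← Matrix.blockDiagonal'_diagonal, ← Matrix.blockDiagonal'_mul,
      ← Matrix.blockDiagonal'_mul]
    exact congrArg _ (funext hM)
  rw [rank_of_diag (isUnit_det_blockDiagonal' P hP) (isUnit_det_blockDiagonal' Q hQ) h1,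
    Matrix.rank_diagonal]
  have h2 : ∀ j, (M j).rank = Fintype.card {i // D j i ≠ 0} := fun j => by
    rw [rank_of_diag (hP j) (hQ j) (hM j), Matrix.rank_diagonal]
  rw [Finset.sum_congr rfl fun j _ => h2 j, ← Fintype.card_sigma]
  exact Fintype.card_congr
    { toFun := fun p => ⟨p.1.1, ⟨p.1.2, p.2⟩⟩
      invFun := fun q => ⟨⟨q.1, q.2.1⟩, q.2.2⟩
      left_inv := fun p => rfl
      right_inv := fun q => rfl }

theorem grk_blockDiagonal' {R : Type} [CommRing R] [IsDomain R] {J : Type} [Fintype J]
    [DecidableEq J] {κ : J → Type} [∀ j, Fintype (κ j)] [∀ j, DecidableEq (κ j)]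
    (M : ∀ j, Matrix (κ j) (κ j) R) : grk (Matrix.blockDiagonal' M) = ∑ j, grk (M j) := by
  have h1 : (Matrix.blockDiagonal' M).map (algebraMap R (FractionRing R)) =
      Matrix.blockDiagonal' fun j => (M j).map (algebraMap R (FractionRing R)) :=
    Matrix.blockDiagonal'_map M _ (map_zero _)
  unfold grk
  rw [h1, rank_blockDiagonal']

theorem grk_conj {R : Type} [CommRing R] [IsDomain R] {α β : Type} [Fintype α] [DecidableEq α]
    [Fintype β] [DecidableEq β] (B : Matrix α α R) (J : Matrix α β R) (V : Matrix β α R)
    (hJV : J * V = 1) : grk (J.transpose * B * J) = grk B := by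
  have h1 : (J.transpose * B * J).map (algebraMap R (FractionRing R)) =
      (J.map (algebraMap R (FractionRing R))).transpose *
        B.map (algebraMap R (FractionRing R)) * J.map (algebraMap R (FractionRing R)) := by
    rw [Matrix.map_mul, Matrix.map_mul, Matrix.transpose_map]
  have h2 : J.map (algebraMap R (FractionRing R)) * V.map (algebraMap R (FractionRing R)) = 1 := by
    rw [← Matrix.map_mul, hJV, Matrix.map_one _ (map_zero _) (map_one _)]
  unfold grk
  rw [h1]
  set J' := J.map (algebraMap R (FractionRing R)) with hJ'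
  set V' := V.map (algebraMap R (FractionRing R)) with hV'
  set B' := B.map (algebraMap R (FractionRing R)) with hB'
  refine le_antisymm ((Matrix.rank_mul_le_left _ _).trans (Matrix.rank_mul_le_right _ _)) ?_
  have h3 : V'.transpose * (J'.transpose * B' * J') * V' = B' := by
    have h4 : V'.transpose * J'.transpose = 1 := by
      rw [← Matrix.transpose_mul, h2, Matrix.transpose_one]
    calc V'.transpose * (J'.transpose * B' * J') * V'
        = (V'.transpose * J'.transpose) * B' * (J' * V') := by
          simp only [Matrix.mul_assoc]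
      _ = B' := by rw [h4, h2, Matrix.one_mul, Matrix.mul_one]
  calc B'.rank = (V'.transpose * (J'.transpose * B' * J') * V').rank := by rw [h3]
    _ ≤ _ := (Matrix.rank_mul_le_left _ _).trans (Matrix.rank_mul_le_right _ _)

end Pool.Agent.SFX
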