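import Mathlib

/-!
# The chain rule for substitutions of multivariate power series

The chain rule holds for polynomials by induction. A power series is the sum of a truncation and
of a series all of whose monomials have large degree, and the latter does not contribute to a
given coefficient of either side.
-/

open scoped BigOperators
open Finset MvPowerSeries

namespace Pool.Agent.SFX

variable {K : Type} [Field K] {κ ι : Type} [Fintype κ] [Fintype ι]

/-- The chain rule for a polynomial. -/
theorem pderiv_subst_coe (τ : κ → MvPowerSeries ι K) (h0 : ∀ i, constantCoeff (τ i) = 0) (a : ι)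
    (p : MvPolynomial κ K) :
    pderiv K a ((p : MvPowerSeries κ K).subst τ) =
      ∑ b, (pderiv K b (p : MvPowerSeries κ K)).subst τ * pderiv K a (τ b) := by
  classical
  have ha : HasSubst τ := hasSubst_of_constantCoeff_zero h0
  have hz : (0 : MvPowerSeries κ K).subst τ = (0 : MvPowerSeries ι K) := by
    rw [← substAlgHom_apply (R := K) ha, map_zero]
  induction p using MvPolynomial.induction_on with
  | C r =>
    rw [MvPolynomial.coe_C, subst_C, pderiv_C]
    symm
    refine Finset.sum_eq_zero fun b _ => ?_
    rw [pderiv_C, hz, zero_mul]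
  | add p q hp hq =>
    rw [MvPolynomial.coe_add, subst_add ha, map_add, hp, hq, ← Finset.sum_add_distrib]
    refine Finset.sum_congr rfl fun b _ => ?_
    rw [map_add, subst_add ha, add_mul]
  | mul_X p i hp =>
    rw [MvPolynomial.coe_mul, MvPolynomial.coe_X, subst_mul ha, subst_X ha, Derivation.leibniz, hp]
    have h1 : ∀ b, (pderiv K b ((p : MvPowerSeries κ K) * X i)).subst τ * pderiv K a (τ b) =
        (p : MvPowerSeries κ K).subst τ * (pderiv K b (X i : MvPowerSeries κ K)).subst τ
          * pderiv K a (τ b) +
        τ i * ((pderiv K b (p : MvPowerSeries κ K)).subst τ * pderiv K a (τ b)) := by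
      intro b
      rw [Derivation.leibniz, subst_add ha, smul_eq_mul, smul_eq_mul, subst_mul ha, subst_mul ha,
        subst_X ha]
      ring
    have h1' : (1 : MvPowerSeries κ K).subst τ = (1 : MvPowerSeries ι K) := by
      rw [← substAlgHom_apply (R := K) ha, map_one]
    have h2 : ∑ b, (p : MvPowerSeries κ K).subst τ * (pderiv K b (X i : MvPowerSeries κ K)).subst τ
        * pderiv K a (τ b) = (p : MvPowerSeries κ K).subst τ * pderiv K a (τ i) := by
      rw [Finset.sum_eq_single i, pderiv_X_self, h1', mul_one]
      · intro b _ hb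
        rw [pderiv_X_of_ne (Ne.symm hb), hz, mul_zero, zero_mul]
      · intro hi
        exact absurd (Finset.mem_univ i) hi
    rw [Finset.sum_congr rfl fun b _ => h1 b, Finset.sum_add_distrib, ← Finset.mul_sum, h2,
      smul_eq_mul, smul_eq_mul]

/-- If all monomials of `f` have degree at least `N`, so have all monomials of `f (τ)`. -/
theorem coeff_subst_eq_zero (τ : κ → MvPowerSeries ι K) (h0 : ∀ i, constantCoeff (τ i) = 0)
    {N : ℕ} (f : MvPowerSeries κ K) (hf : ∀ m, m.degree < N → coeff m f = 0) (e : ι →₀ ℕ)
    (he : e.degree < N) : coeff e (f.subst τ) = 0 := by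
  have ha : HasSubst τ := hasSubst_of_constantCoeff_zero h0
  have h1 : (N : ℕ∞) ≤ f.order := nat_le_order hf
  have h2 : (1 : ℕ∞) ≤ ⨅ i, (τ i).order := by
    refine le_iInf fun i => ?_
    exact one_le_order_iff_constCoeff_eq_zero.mpr (h0 i)
  have h3 : (N : ℕ∞) ≤ (f.subst τ).order := by
    refine le_trans ?_ (le_order_subst ha f)
    calc (N : ℕ∞) = 1 * N := (one_mul _).symm
      _ ≤ (⨅ i, (τ i).order) * f.order := mul_le_mul' h2 h1
  refine coeff_of_lt_order (lt_of_lt_of_le ?_ h3)
  exact_mod_cast he

/-- The chain rule. -/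
theorem pderiv_subst (τ : κ → MvPowerSeries ι K) (h0 : ∀ i, constantCoeff (τ i) = 0) (a : ι)
    (f : MvPowerSeries κ K) :
    pderiv K a (f.subst τ) = ∑ b, (pderiv K b f).subst τ * pderiv K a (τ b) := by
  classical
  have ha : HasSubst τ := hasSubst_of_constantCoeff_zero h0
  ext e
  obtain ⟨p, g, hf, hg⟩ : ∃ (p : MvPolynomial κ K) (g : MvPowerSeries κ K),
      f = (p : MvPowerSeries κ K) + g ∧ ∀ m, m.degree < e.degree + 2 → coeff m g = 0 := by
    refine ⟨truncTotal (e.degree + 2) f, f - (truncTotal (e.degree + 2) f : MvPolynomial κ K),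
      by ring, fun m hm => ?_⟩
    rw [map_sub, MvPolynomial.coeff_coe, coeff_truncTotal _ hm, sub_self]
  have hL : coeff e (pderiv K a (g.subst τ)) = 0 := by
    rw [coeff_pderiv, coeff_subst_eq_zero τ h0 g hg, zero_mul]
    rw [map_add, Finsupp.degree_single]
    omega
  have hR : ∀ b, coeff e ((pderiv K b g).subst τ * pderiv K a (τ b)) = 0 := by
    intro b
    rw [coeff_mul]
    refine Finset.sum_eq_zero fun x hx => ?_
    have hx' : x.1 + x.2 = e := by simpa using hx
    have hd : x.1.degree ≤ e.degree := by
      rw [← hx', map_add]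
      omega
    rw [coeff_subst_eq_zero (N := e.degree + 1) τ h0 (pderiv K b g), zero_mul]
    · intro m hm
      rw [coeff_pderiv, hg, zero_mul]
      rw [map_add, Finsupp.degree_single]
      omega
    · omega
  have e1 : coeff e (pderiv K a (f.subst τ)) =
      coeff e (pderiv K a ((p : MvPowerSeries κ K).subst τ)) := by
    rw [hf, subst_add ha, map_add, map_add, hL, add_zero]
  have e2 : coeff e (∑ b, (pderiv K b f).subst τ * pderiv K a (τ b)) =
      coeff e (∑ b, (pderiv K b (p : MvPowerSeries κ K)).subst τ * pderiv K a (τ b)) := by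
    rw [map_sum, map_sum]
    refine Finset.sum_congr rfl fun b _ => ?_
    rw [hf, map_add, subst_add ha, add_mul, map_add, hR, add_zero]
  rw [e1, e2, pderiv_subst_coe τ h0 a p]

end Pool.Agent.SFX
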