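import Pool.Agent.SFX.Blk
import Pool.Agent.Helper1.DubProd.Main

/-!
# Trace forms of algebras isomorphic to a product

`A` is an algebra in the basis `φ_a`, `B j` are algebras, and `P` is the matrix of an isomorphism
`A → ∏_j B_j`. Then the trace form of `A` is `P^t (trace forms of the B_j) P`: the matrices of the
multiplications by the `φ_a` are conjugate to block diagonal matrices.
-/

open scoped BigOperators
open Finset

namespace Pool.Agent.SFX

open Pool.Agent.Helper18.Dub Pool.Agent.Helper1.DubProd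

theorem trm_eq_trace {R : Type} [CommRing R] {ι : Type} [Fintype ι] [DecidableEq ι]
    (A : AlgStr R ι) : trm A = Matrix.of fun a b => (A.matOf a * A.matOf b).trace := by
  ext1 a b
  rw [Matrix.of_apply, trm, Algebra.traceMatrix_apply, AlgStr.traceForm_basis, Matrix.trace]
  refine Finset.sum_congr rfl fun k _ => ?_
  rw [Matrix.diag_apply, Matrix.mul_apply]
  rfl

section

variable {R : Type} [CommRing R] {ι : Type} [Fintype ι] [DecidableEq ι] {J : Type} [Fintype J]
  [DecidableEq J] {κ : J → Type} [∀ j, Fintype (κ j)] [∀ j, DecidableEq (κ j)]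

private theorem mat_intertwine (A : AlgStr R ι) (B : ∀ j, AlgStr R (κ j))
    (P : Matrix (Σ j, κ j) ι R)
    (h : ∀ j a b k, ∑ c, A.m a b c * P ⟨j, k⟩ c =
      ∑ e, ∑ f, P ⟨j, e⟩ a * P ⟨j, f⟩ b * (B j).m e f k) (a : ι) :
    P * A.matOf a =
      Matrix.blockDiagonal' (fun j => ∑ e, P ⟨j, e⟩ a • (B j).matOf e) * P := by
  ext ⟨j, k⟩ b
  rw [Matrix.mul_apply, Matrix.mul_apply, Fintype.sum_sigma]
  have h1 : ∀ c, P ⟨j, k⟩ c * A.matOf a c b = A.m a b c * P ⟨j, k⟩ c := fun c => mul_comm _ _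
  rw [Finset.sum_congr rfl fun c _ => h1 c, h j a b k, Finset.sum_eq_single j]
  · rw [Finset.sum_comm]
    refine Finset.sum_congr rfl fun f _ => ?_
    rw [Matrix.blockDiagonal'_apply_eq, Matrix.sum_apply, Finset.sum_mul]
    refine Finset.sum_congr rfl fun e _ => ?_
    rw [Matrix.smul_apply, smul_eq_mul]
    show _ = P ⟨j, e⟩ a * (B j).m e f k * P ⟨j, f⟩ b
    ring
  · intro j' _ hj
    refine Finset.sum_eq_zero fun f _ => ?_
    rw [Matrix.blockDiagonal'_apply_ne _ _ _ (Ne.symm hj), zero_mul]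
  · intro hj
    exact absurd (Finset.mem_univ j) hj

private theorem trace_conj (A : AlgStr R ι) (P : Matrix (Σ j, κ j) ι R)
    (V : Matrix ι (Σ j, κ j) R) (hPV : P * V = 1) (hVP : V * P = 1)
    (N : ι → Matrix (Σ j, κ j) (Σ j, κ j) R) (hN : ∀ a, P * A.matOf a = N a * P) (a b : ι) :
    (A.matOf a * A.matOf b).trace = (N a * N b).trace := by
  have h1 : A.matOf a * A.matOf b = V * (N a * N b * P) := by
    calc A.matOf a * A.matOf b = V * P * (A.matOf a * A.matOf b) := by rw [hVP, Matrix.one_mul]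
      _ = V * (P * A.matOf a * A.matOf b) := by simp only [Matrix.mul_assoc]
      _ = V * (N a * (P * A.matOf b)) := by rw [hN a, Matrix.mul_assoc]
      _ = V * (N a * N b * P) := by rw [hN b, Matrix.mul_assoc]
  rw [h1, Matrix.trace_mul_comm, Matrix.mul_assoc, hPV, Matrix.mul_one]

theorem trm_of_iso (A : AlgStr R ι) (B : ∀ j, AlgStr R (κ j)) (P : Matrix (Σ j, κ j) ι R)
    (V : Matrix ι (Σ j, κ j) R) (hPV : P * V = 1) (hVP : V * P = 1)
    (h : ∀ j a b k, ∑ c, A.m a b c * P ⟨j, k⟩ c =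
      ∑ e, ∑ f, P ⟨j, e⟩ a * P ⟨j, f⟩ b * (B j).m e f k) :
    trm A = P.transpose * Matrix.blockDiagonal' (fun j => trm (B j)) * P := by
  ext a b
  rw [trm_eq_trace, Matrix.of_apply,
    trace_conj A P V hPV hVP _ (fun a => mat_intertwine A B P h a) a b,
    ← Matrix.blockDiagonal'_mul, Matrix.trace_blockDiagonal', Matrix.mul_apply,
    Fintype.sum_sigma]
  refine Finset.sum_congr rfl fun j _ => ?_
  rw [Finset.sum_mul_sum, Matrix.trace_sum]
  have h2 : ∀ f, (P.transpose * Matrix.blockDiagonal' (fun j => trm (B j))) a ⟨j, f⟩ =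
      ∑ e, P ⟨j, e⟩ a * ((B j).matOf e * (B j).matOf f).trace := by
    intro f
    rw [Matrix.mul_apply, Fintype.sum_sigma, Finset.sum_eq_single j]
    · refine Finset.sum_congr rfl fun e _ => ?_
      rw [Matrix.blockDiagonal'_apply_eq, Matrix.transpose_apply, trm_eq_trace, Matrix.of_apply]
    · intro j' _ hj
      refine Finset.sum_eq_zero fun e _ => ?_
      rw [Matrix.blockDiagonal'_apply_ne _ _ _ hj, mul_zero]
    · intro hj
      exact absurd (Finset.mem_univ j) hj
  have h3 : ∀ f, (P.transpose * Matrix.blockDiagonal' (fun j => trm (B j))) a ⟨j, f⟩ *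
      P ⟨j, f⟩ b = ∑ e, P ⟨j, e⟩ a * ((B j).matOf e * (B j).matOf f).trace * P ⟨j, f⟩ b := by
    intro f
    rw [h2, Finset.sum_mul]
  rw [Finset.sum_congr rfl fun f _ => h3 f, Finset.sum_comm]
  refine Finset.sum_congr rfl fun e _ => ?_
  rw [Matrix.trace_sum]
  refine Finset.sum_congr rfl fun f _ => ?_
  rw [Matrix.smul_mul, Matrix.mul_smul, Matrix.trace_smul, Matrix.trace_smul, smul_eq_mul,
    smul_eq_mul]
  ring

theorem srk_of_iso [IsDomain R] (A : AlgStr R ι) (B : ∀ j, AlgStr R (κ j))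
    (P : Matrix (Σ j, κ j) ι R) (V : Matrix ι (Σ j, κ j) R) (hPV : P * V = 1) (hVP : V * P = 1)
    (h : ∀ j a b k, ∑ c, A.m a b c * P ⟨j, k⟩ c =
      ∑ e, ∑ f, P ⟨j, e⟩ a * P ⟨j, f⟩ b * (B j).m e f k) :
    srk A = ∑ j, srk (B j) := by
  rw [srk, trm_of_iso A B P V hPV hVP h, grk_conj _ P V hPV, grk_blockDiagonal']
  rfl

end

end Pool.Agent.SFX
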