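import Pool.Agent.SFX.Defs
import Pool.Agent.SFX.Trm

/-!
# Points and curves

The number of canonical coordinates of a point is `1`, of `ℙ^1` it is `2`, and of a curve of
positive genus it is `1` (the trace form is diagonal in the basis `1, φ`). Semisimplicity is full
rank of the trace form, and curves of positive genus are the only ones with Hodge numbers off the
diagonal.
-/

open scoped BigOperators
open Finset MvPowerSeries

namespace Pool.Agent.SFX

open Pool.Agent.Helper18.Dub Pool.Agent.Helper1.DubProd

section one

variable {K : Type} [Field K] {κ : Type} [Fintype κ] [DecidableEq κ]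

theorem coords_eq_srk (F : BigQH K κ) : coords F = srk F := by
  rw [coords, srk, grk]
  congr 2
  ext1 a b
  rw [Matrix.of_apply, trm, Algebra.traceMatrix_apply, AlgStr.traceForm_basis, Matrix.trace]
  refine Finset.sum_congr rfl fun k _ => ?_
  rw [Matrix.diag_apply, Matrix.mul_apply]
  rfl

private theorem curve_charZero (K : Type) [Field K] [CharZero K] (κ : Type) :
    CharZero (MvPowerSeries κ K) :=
  charZero_of_injective_algebraMap (R := K) (algebraMap K (MvPowerSeries κ K)).injective

theorem semisimple_iff [CharZero K] (F : BigQH K κ) :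
    Semisimple F ↔ coords F = Fintype.card κ := by
  have := curve_charZero K κ
  rw [coords_eq_srk, srk_eq_card_iff, ← AlgStr.genericallySemisimple_iff,
    AlgStr.GenericallySemisimple, AlgStr.isSemisimple_iff, Semisimple, matAlg]
  rfl

theorem coords_le (F : BigQH K κ) : coords F ≤ Fintype.card κ :=
  Matrix.rank_le_card_width _

private theorem curve_rank (F : BigQH K κ) (d : κ → MvPowerSeries κ K)
    (h : trm F = Matrix.diagonal d) : coords F = Nat.card {i // d i ≠ 0} := by
  classical
  rw [coords_eq_srk, srk, grk, h, Matrix.diagonal_map (map_zero _), Matrix.rank_diagonal,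
    Nat.card_eq_fintype_card]
  refine Fintype.card_congr (Equiv.subtypeEquivRight fun i => not_congr ?_)
  exact map_eq_zero_iff (algebraMap (MvPowerSeries κ K) (FractionRing (MvPowerSeries κ K)))
    (IsFractionRing.injective (MvPowerSeries κ K) _)

private theorem curve_entry (F : BigQH K κ) (a b : κ) :
    trm F a b = ∑ k, ∑ l, F.m a l k * F.m b k l := by
  rw [trm, Algebra.traceMatrix_apply, AlgStr.traceForm_basis]

private theorem curve_expS (φ : κ) : constantCoeff (expS K φ) = 1 := by
  rw [← coeff_zero_eq_constantCoeff_apply]
  show (if (0 : κ →₀ ℕ) = Finsupp.single φ ((0 : κ →₀ ℕ) φ) then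
    (((0 : κ →₀ ℕ) φ).factorial : K)⁻¹ else 0) = 1
  simp

theorem coords_of_isPointOrCurve [CharZero K] (F : BigQH K κ) (c : Option ℕ)
    (h : IsPointOrCurve F c) : coords F = count c := by
  classical
  have := curve_charZero K κ
  rcases c with _ | g
  · have hall : ∀ i, i = F.one := h
    have hu : (univ : Finset κ) = {F.one} := by
      ext i
      simp [hall i]
    have htrm : trm F = Matrix.diagonal fun _ => 1 := by
      ext1 a b
      rw [curve_entry, hall a, hall b, hu]
      simp [F.one_mul]
    rw [curve_rank F _ htrm]
    show _ = 1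
    rw [Nat.card_eq_one_iff_exists]
    exact ⟨⟨F.one, one_ne_zero⟩, fun y => Subtype.ext (hall y.1)⟩
  · obtain ⟨φ, hφ, hall, h0, q, hq, hu⟩ := h
    have huniv : (univ : Finset κ) = {F.one, φ} := by
      ext i
      simp [hall i]
    have hne : F.one ≠ φ := fun h => hφ h.symm
    have hsum : ∀ f : κ → MvPowerSeries κ K, ∑ k, f k = f F.one + f φ := by
      intro f
      rw [huniv, Finset.sum_pair hne]
    have m11 : F.m F.one F.one F.one = 1 := by rw [F.one_mul, if_pos rfl]
    have m12 : F.m F.one F.one φ = 0 := by rw [F.one_mul, if_neg hne]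
    have m21 : F.m F.one φ F.one = 0 := by rw [F.one_mul, if_neg hφ]
    have m22 : F.m F.one φ φ = 1 := by rw [F.one_mul, if_pos rfl]
    have n11 : F.m φ F.one F.one = 0 := by rw [F.comm, m21]
    have n12 : F.m φ F.one φ = 1 := by rw [F.comm, m22]
    have htrm : trm F = Matrix.diagonal fun i =>
        if i = F.one then 2 else 2 * F.m φ φ F.one := by
      ext1 a b
      rw [curve_entry]
      simp only [hsum]
      rcases hall a with ha | ha <;> rcases hall b with hb | hb
      · subst ha; rw [hb, Matrix.diagonal_apply_eq, if_pos rfl, m11, m12, m21, m22]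
        ring
      · rw [ha, hb, Matrix.diagonal_apply_ne _ hne, m11, m12, m21, m22, n11, n12, h0]
        ring
      · rw [ha, hb, Matrix.diagonal_apply_ne _ hφ, m11, m12, m21, m22, n11, n12, h0]
        ring
      · rw [ha, hb, Matrix.diagonal_apply_eq, if_neg hφ, n11, n12, h0]
        ring
    rw [curve_rank F _ htrm]
    rcases g with _ | g
    · show _ = 2
      have hu' : F.m φ φ F.one ≠ 0 := by
        rw [hu, if_pos rfl]
        intro h
        have h2 := congrArg constantCoeff h
        rw [map_mul, curve_expS, constantCoeff_C, map_zero, mul_one] at h2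
        exact hq h2
      have hd : ∀ i, (if i = F.one then (2 : MvPowerSeries κ K) else 2 * F.m φ φ F.one) ≠ 0 := by
        intro i
        split_ifs
        · exact two_ne_zero
        · exact mul_ne_zero two_ne_zero hu'
      rw [Nat.card_congr (Equiv.subtypeUnivEquiv hd), Nat.card_eq_fintype_card,
        ← Finset.card_univ, huniv, Finset.card_pair hne]
    · show _ = 1
      rw [if_neg (Nat.succ_ne_zero g)] at hu
      rw [Nat.card_eq_one_iff_exists]
      refine ⟨⟨F.one, ?_⟩, fun y => Subtype.ext ?_⟩
      · rw [if_pos rfl]; exact two_ne_zero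
      · by_contra hy
        have := y.2
        rw [if_neg hy, hu, mul_zero] at this
        exact this rfl

/-- Curves of positive genus are the only non-semisimple ones. -/
theorem semisimple_iff_of_isPointOrCurve [CharZero K] (F : BigQH K κ) (c : Option ℕ)
    (h : IsPointOrCurve F c) : Semisimple F ↔ ∀ g, c ≠ some (g + 1) := by
  classical
  rw [semisimple_iff, coords_of_isPointOrCurve F c h]
  rcases c with _ | g
  · have hall : ∀ i, i = F.one := h
    have hc : Fintype.card κ = 1 := Fintype.card_eq_one_iff.2 ⟨F.one, hall⟩
    rw [hc]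
    exact ⟨fun _ g => by simp, fun _ => rfl⟩
  · obtain ⟨φ, hφ, hall, h0, q, hq, hu⟩ := h
    have huniv : (univ : Finset κ) = {F.one, φ} := by
      ext i
      simp [hall i]
    have hne : F.one ≠ φ := fun h => hφ h.symm
    have hc : Fintype.card κ = 2 := by rw [← Finset.card_univ, huniv, Finset.card_pair hne]
    rw [hc]
    rcases g with _ | g
    · exact ⟨fun _ g => by simp, fun _ => rfl⟩
    · refine ⟨fun h => ?_, fun h => absurd rfl (h g)⟩
      exact absurd (show (1 : ℕ) = 2 from h) (by norm_num)

end one

private theorem hodgeC_none {a b : ℕ} (h : a ≠ b) : hodgeC none a b = 0 := by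
  rcases a with _ | _ | a <;> rcases b with _ | _ | b <;> first | rfl | exact absurd rfl h

private theorem hodgeC_zero {a b : ℕ} (h : a ≠ b) : hodgeC (some 0) a b = 0 := by
  rcases a with _ | _ | a <;> rcases b with _ | _ | b <;> first | rfl | exact absurd rfl h

theorem hodgeX_iff {J : Type} [Fintype J] (c : J → Option ℕ) (n : J → ℕ) :
    (∀ p q, p ≠ q → hodgeX c n p q = 0) ↔ ∀ j g, c j ≠ some (g + 1) := by
  constructor
  · intro h j g hj
    have h1 := h (n j + 1) (n j) (by omega)
    rw [hodgeX, Finset.sum_eq_zero_iff] at h1
    have h2 := h1 j (Finset.mem_univ _)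
    rw [if_pos ⟨by omega, le_refl _⟩, hj, Nat.add_sub_cancel_left, Nat.sub_self] at h2
    exact absurd (show g + 1 = 0 from h2) (by omega)
  · intro h p q hpq
    rw [hodgeX]
    refine Finset.sum_eq_zero fun j _ => ?_
    split_ifs with hn
    · have hne : p - n j ≠ q - n j := by omega
      rcases hc : c j with _ | g
      · exact hodgeC_none hne
      · rcases g with _ | g
        · exact hodgeC_zero hne
        · exact absurd hc (h j g)
    · rfl

end Pool.Agent.SFX
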