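import Pool.Agent.SHF.Defs
import Pool.Agent.Helper18.Dub.AlgDefs

/-!
# Big quantum cohomology of the fixed components of a torus action
-/

open scoped BigOperators
open Finset MvPowerSeries

namespace Pool.Agent.SFX

open Pool.Agent.Helper18.Dub Pool.Agent.SHF

/-- The big quantum cohomology of a smooth projective variety `F` near a base point, over a field
`K ⊇ ℂ`: the structure constants `m a b k` of `φ_a • φ_b = ∑_k m a b k φ_k`, in a basis `φ_i`,
`i : κ`, of `H^{even}(F)`, at the point `b + ∑ s_i φ_i`. They are power series in the `s_i` with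
coefficients in `K`, in which the base point `b` and the Novikov variables have their values. The
product is commutative and associative and `φ_one = 1` is the unit (`AlgStr`). -/
abbrev BigQH (K : Type) [Field K] (κ : Type) [Fintype κ] [DecidableEq κ] : Type :=
  AlgStr (MvPowerSeries κ K) κ

section one

variable {K : Type} [Field K] {κ : Type} [Fintype κ] [DecidableEq κ]

instance instIsDomainMvPowerSeriesField (K : Type) [Field K] (κ : Type) :
    IsDomain (MvPowerSeries κ K) := NoZeroDivisors.to_isDomain _

/-- The matrix of `φ_a •`. -/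
def opMat (F : BigQH K κ) (a : κ) : Matrix κ κ (MvPowerSeries κ K) :=
  Matrix.of fun k b => F.m a b k

/-- The rank of the trace form `(φ_a, φ_b) ↦ tr (φ_a • φ_b •)` at the generic point, that is the
number of canonical coordinates of `F`. -/
noncomputable def coords (F : BigQH K κ) : ℕ :=
  ((Matrix.of fun a b => (opMat F a * opMat F b).trace).map
    (algebraMap (MvPowerSeries κ K) (FractionRing (MvPowerSeries κ K)))).rank

/-- The big quantum cohomology of `F` is semisimple at the generic point. -/
def Semisimple (F : BigQH K κ) : Prop := IsSemisimpleRing (matAlg (opMat F))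

/-- The exponential series `e^{s_i}`. -/
noncomputable def expS (K : Type) [Field K] {κ : Type} [Fintype κ] [DecidableEq κ] (i : κ) :
    MvPowerSeries κ K :=
  fun m => if m = Finsupp.single i (m i) then ((m i).factorial : K)⁻¹ else 0

/-- `F` is the even part of the big quantum cohomology of a point (`none`) or of a smooth projective
curve of genus `g` (`some g`). In the second case a basis is given by `1` and the class `φ` of a
point, and `φ • φ = q e^s 1` for `g = 0` (`s` is the coordinate of `φ`, and `q ≠ 0` the value of the
Novikov variable at the base point) and `φ • φ = 0` for `g > 0` (there are no rational curves). -/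
def IsPointOrCurve (F : BigQH K κ) : Option ℕ → Prop
  | none => ∀ i, i = F.one
  | some g => ∃ φ, φ ≠ F.one ∧ (∀ i, i = F.one ∨ i = φ) ∧ F.m φ φ φ = 0 ∧
      ∃ q : K, q ≠ 0 ∧ F.m φ φ F.one = if g = 0 then C q * expS K φ else 0

end one

/-- The derivative at `t = 0` of the map `τ = (τ_j)`. -/
noncomputable def jac {ι K J : Type} [Field K] {κ : J → Type} (τ : ∀ j, κ j → MvPowerSeries ι K) :
    Matrix (Σ j, κ j) ι K :=
  Matrix.of fun x a => constantCoeff (pderiv K a (τ x.1 x.2))

/-- Equivariant big quantum cohomology near the fixed locus. Let `F_j`, `j : J`, be the connected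
components of `X^T`, with bases of `H^{even}(F_j)` indexed by `κ j`, and `K ⊇ ℂ[λ]` a field, for
example `K = ℂ((1/λ))`. By the fixed point theorem for the Lagrangian cone (Brown,
Coates–Givental, Iritani) and the quantum Riemann–Roch theorem there are maps
`τ_j : H_T(X) → H(F_j)`, power series in `t` with coefficients in `K` (and values `b_j` at `t = 0`;
`τ_j` denotes the map minus `b_j`), such that `dτ = (dτ_j)` is an isomorphism and a homomorphism for
the quantum products: over `K`, the F-manifold of the equivariant big quantum cohomology of `X` is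
the product of the F-manifolds of the `F_j`. -/
structure FixedLocus {ι : Type} [Fintype ι] [DecidableEq ι] {X : FanoGW ι} (T : EquivGW X)
    (K : Type) [Field K] {J : Type} (κ : J → Type) [∀ j, Fintype (κ j)]
    [∀ j, DecidableEq (κ j)] [DecidableEq J] [Fintype J] where
  /-- the inclusion `ℂ[λ] → K` -/
  ev : Polynomial ℂ →+* K
  ev_inj : Function.Injective ev
  /-- the theory of `F_j` near the base point `b_j` -/
  F : ∀ j, BigQH K (κ j)
  /-- the maps `τ_j - b_j` -/
  τ : ∀ j, κ j → MvPowerSeries ι K
  τ_zero : ∀ j i, constantCoeff (τ j i) = 0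
  /-- `dτ_j (φ_a • φ_b) = dτ_j (φ_a) • dτ_j (φ_b)` -/
  mul : ∀ j a b k, ∑ c, MvPowerSeries.map ev (T.toEquivData.scT a b c) * pderiv K c (τ j k) =
    ∑ e, ∑ f, pderiv K a (τ j e) * pderiv K b (τ j f) * ((F j).m e f k).subst (τ j)
  /-- `dτ` is invertible at `t = 0` -/
  iso : ∃ V : Matrix ι (Σ j, κ j) K, jac τ * V = 1 ∧ V * jac τ = 1

/-- The number of canonical coordinates of a point (`none`) or of a curve of genus `g`
(`some g`). -/
def count : Option ℕ → ℕ
  | none => 1
  | some 0 => 2
  | some (_ + 1) => 1

/-- The Hodge numbers of a point (`none`) or of a curve of genus `g` (`some g`). -/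
def hodgeC : Option ℕ → ℕ → ℕ → ℕ
  | _, 0, 0 => 1
  | some g, 1, 0 => g
  | some g, 0, 1 => g
  | some _, 1, 1 => 1
  | _, _, _ => 0

/-- The Hodge numbers of `X` (Białynicki-Birula) if the components `F_j` of `X^T` are points or
curves `c_j`; `n_j` is the number of positive weights of the normal bundle of `F_j`. -/
def hodgeX {J : Type} [Fintype J] (c : J → Option ℕ) (n : J → ℕ) (p q : ℕ) : ℕ :=
  ∑ j, if n j ≤ p ∧ n j ≤ q then hodgeC (c j) (p - n j) (q - n j) else 0

end Pool.Agent.SFX
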