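import Pool.Agent.SFX.Chain

/-!
# Submersions: substitution is injective

The kernel of `f ↦ f (τ)` consists of series without constant term and, by the chain rule, it is
closed under all partial derivatives if the derivative of `τ` at the origin is surjective. So it is
zero in characteristic zero.
-/

open scoped BigOperators
open Finset MvPowerSeries

namespace Pool.Agent.SFX

variable {K : Type} [Field K] {κ ι : Type} [Fintype κ] [DecidableEq κ] [Fintype ι]

/-- The constant term of `f (τ)`. -/
theorem constantCoeff_subst' (τ : κ → MvPowerSeries ι K) (h0 : ∀ i, constantCoeff (τ i) = 0)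
    (f : MvPowerSeries κ K) : constantCoeff (f.subst τ) = constantCoeff f := by
  have ha : HasSubst τ := hasSubst_of_constantCoeff_zero h0
  have h1 : f = (f - C (constantCoeff f)) + C (constantCoeff f) := by ring
  have h2 : constantCoeff (f - C (constantCoeff f) : MvPowerSeries κ K) = 0 := by
    rw [map_sub, constantCoeff_C, sub_self]
  conv_lhs => rw [h1]
  rw [subst_add ha, map_add, constantCoeff_subst_eq_zero ha h0 h2, zero_add, subst_C,
    constantCoeff_C]

/-- A matrix of power series whose constant term has a right inverse has a right inverse. -/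
theorem exists_right_inverse (J : Matrix κ ι (MvPowerSeries ι K)) (V : Matrix ι κ K)
    (hV : J.map constantCoeff * V = 1) : ∃ W : Matrix ι κ (MvPowerSeries ι K), J * W = 1 := by
  classical
  set V' : Matrix ι κ (MvPowerSeries ι K) := V.map C with hV'
  have h1 : (J * V').map constantCoeff = 1 := by
    rw [← hV]
    ext1 i j
    rw [Matrix.map_apply, Matrix.mul_apply, Matrix.mul_apply, map_sum]
    refine Finset.sum_congr rfl fun k _ => ?_
    rw [map_mul, hV', Matrix.map_apply, Matrix.map_apply, constantCoeff_C]
  have h2 : constantCoeff (J * V').det = 1 := by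
    rw [RingHom.map_det]
    have h3 : (constantCoeff : MvPowerSeries ι K →+* K).mapMatrix (J * V') =
        (J * V').map constantCoeff := rfl
    rw [h3, h1, Matrix.det_one]
  have h3 : IsUnit (J * V').det := by
    rw [isUnit_iff_constantCoeff, h2]
    exact isUnit_one
  refine ⟨V' * (J * V')⁻¹, ?_⟩
  rw [← Matrix.mul_assoc, Matrix.mul_nonsing_inv _ h3]

/-- Substitution is injective if the derivative at the origin is surjective. -/
theorem eq_zero_of_subst [CharZero K] (τ : κ → MvPowerSeries ι K)
    (h0 : ∀ i, constantCoeff (τ i) = 0) (V : Matrix ι κ K)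
    (hV : (Matrix.of fun b a => constantCoeff (pderiv K a (τ b)) : Matrix κ ι K) * V = 1)
    (f : MvPowerSeries κ K) (hf : f.subst τ = 0) : f = 0 := by
  classical
  obtain ⟨W, hW⟩ := exists_right_inverse
    (Matrix.of fun b a => pderiv K a (τ b) : Matrix κ ι (MvPowerSeries ι K)) V hV
  -- the kernel is closed under derivatives
  have hker : ∀ f : MvPowerSeries κ K, f.subst τ = 0 → ∀ b, (pderiv K b f).subst τ = 0 := by
    intro f hf b
    have h1 : ∀ a, ∑ c, (pderiv K c f).subst τ * pderiv K a (τ c) = 0 := by
      intro a
      rw [← pderiv_subst τ h0 a f, hf, map_zero]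
    have h2 : (pderiv K b f).subst τ = ∑ c, (pderiv K c f).subst τ *
        (1 : Matrix κ κ (MvPowerSeries ι K)) c b := by
      rw [Finset.sum_eq_single b]
      · rw [Matrix.one_apply_eq, mul_one]
      · intro c _ hc
        rw [Matrix.one_apply_ne hc, mul_zero]
      · intro h
        exact absurd (Finset.mem_univ b) h
    rw [h2, ← hW]
    have h3 : ∀ c, (pderiv K c f).subst τ *
        ((Matrix.of fun b a => pderiv K a (τ b) : Matrix κ ι (MvPowerSeries ι K)) * W) c b =
        ∑ a, (pderiv K c f).subst τ * pderiv K a (τ c) * W a b := by
      intro c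
      rw [Matrix.mul_apply, Finset.mul_sum]
      refine Finset.sum_congr rfl fun a _ => ?_
      rw [Matrix.of_apply, mul_assoc]
    rw [Finset.sum_congr rfl fun c _ => h3 c, Finset.sum_comm]
    refine Finset.sum_eq_zero fun a _ => ?_
    rw [← Finset.sum_mul, h1, zero_mul]
  -- all coefficients vanish
  have hall : ∀ n : ℕ, ∀ m : κ →₀ ℕ, m.degree = n → ∀ f : MvPowerSeries κ K, f.subst τ = 0 →
      coeff m f = 0 := by
    intro n
    induction n with
    | zero =>
      intro m hm f hf
      have h1 : m = 0 := by
        rwa [Finsupp.degree_eq_zero_iff] at hm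
      rw [h1, coeff_zero_eq_constantCoeff_apply, ← constantCoeff_subst' τ h0, hf, map_zero]
    | succ n ih =>
      intro m hm f hf
      have h1 : ∃ b, m b ≠ 0 := by
        by_contra hcon
        push Not at hcon
        have : m = 0 := Finsupp.ext hcon
        rw [this, map_zero] at hm
        omega
      obtain ⟨b, hb⟩ := h1
      set m' := m - Finsupp.single b 1 with hm'
      have h2 : m' + Finsupp.single b 1 = m := by
        refine tsub_add_cancel_of_le ?_
        rw [Finsupp.single_le_iff]
        omega
      have h3 : m'.degree = n := by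
        have h4 := congrArg Finsupp.degree h2
        rw [map_add, hm, Finsupp.degree_single] at h4
        omega
      have h4 := ih m' h3 (pderiv K b f) (hker f hf b)
      rw [coeff_pderiv, h2] at h4
      rcases mul_eq_zero.1 h4 with h5 | h5
      · exact h5
      · exfalso
        have h6 : ((m' b + 1 : ℕ) : K) ≠ 0 := Nat.cast_ne_zero.2 (Nat.succ_ne_zero _)
        apply h6
        push_cast
        exact h5
  ext m
  rw [map_zero]
  exact hall _ m rfl f hf

end Pool.Agent.SFX
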