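import Pool.Agent.SFX.Curve
import Pool.Agent.SFX.Inj
import Pool.Agent.SHF.Main

/-!
# Canonical coordinates of a Fano manifold with a torus action and of the fixed components

The trace form of the equivariant big quantum cohomology of `X` over `K` is, in the basis of the
derivative of `τ`, the orthogonal sum of the trace forms of the fixed components, because `τ` is an
isomorphism of algebras (`srk_of_iso`). The substitution of `τ_j` is injective
(`eq_zero_of_subst`), so the generic ranks do not change.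
-/

open scoped BigOperators
open Finset MvPowerSeries

namespace Pool.Agent.SFX

open Pool.Agent.Helper18.Dub Pool.Agent.Helper1.DubProd Pool.Agent.SHF

namespace FixedLocus

variable {ι : Type} [Fintype ι] [DecidableEq ι] {X : FanoGW ι} {K : Type} [Field K] {J : Type}
  [Fintype J] [DecidableEq J] {κ : J → Type} [∀ j, Fintype (κ j)] [∀ j, DecidableEq (κ j)]

theorem charZero {T : EquivGW X} (Φ : FixedLocus T K κ) : CharZero K :=
  charZero_of_injective_ringHom (f := Φ.ev.comp (Polynomial.C : ℂ →+* Polynomial ℂ))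
    (RingHom.injective _)

theorem card_eq {T : EquivGW X} (Φ : FixedLocus T K κ) :
    Fintype.card ι = ∑ j, Fintype.card (κ j) := by
  obtain ⟨V, h1, h2⟩ := Φ.iso
  rw [← Fintype.card_sigma]
  exact Matrix.square_of_invertible V (jac Φ.τ) h2 h1

private theorem map_injective_aux {σ R S : Type} [CommRing R] [CommRing S] (f : R →+* S)
    (hf : Function.Injective f) :
    Function.Injective (MvPowerSeries.map f : MvPowerSeries σ R →+* MvPowerSeries σ S) := by
  intro p q h
  ext m
  apply hf
  have := congrArg (MvPowerSeries.coeff m) h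
  rwa [MvPowerSeries.coeff_map, MvPowerSeries.coeff_map] at this

/-- substitution of `τ_j` -/
private noncomputable def psi {T : EquivGW X} (Φ : FixedLocus T K κ) (j : J) :
    MvPowerSeries (κ j) K →+* MvPowerSeries ι K :=
  (substAlgHom (hasSubst_of_constantCoeff_zero (Φ.τ_zero j)) :
    MvPowerSeries (κ j) K →ₐ[K] MvPowerSeries ι K).toRingHom

private theorem psi_apply {T : EquivGW X} (Φ : FixedLocus T K κ) (j : J)
    (f : MvPowerSeries (κ j) K) : psi Φ j f = f.subst (Φ.τ j) :=
  substAlgHom_apply _ f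

private theorem psi_injective {T : EquivGW X} (Φ : FixedLocus T K κ) (j : J) :
    Function.Injective (psi Φ j) := by
  have := charZero Φ
  obtain ⟨V, h1, -⟩ := Φ.iso
  rw [injective_iff_map_eq_zero]
  intro f hf
  rw [psi_apply] at hf
  refine eq_zero_of_subst (Φ.τ j) (Φ.τ_zero j) (V.submatrix id (Sigma.mk j)) ?_ f hf
  have h3 := congrArg (fun M => M.submatrix (Sigma.mk j) (Sigma.mk j)) h1
  have h4 : (1 : Matrix (Σ j, κ j) (Σ j, κ j) K).submatrix (Sigma.mk j) (Sigma.mk j) = 1 :=
    Matrix.submatrix_one _ sigma_mk_injective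
  have h5 : (jac Φ.τ * V).submatrix (Sigma.mk j) (Sigma.mk j) = 1 := h3.trans h4
  rw [← h5]
  rfl

/-- the Jacobian matrix of `τ` -/
private noncomputable def pmat {T : EquivGW X} (Φ : FixedLocus T K κ) :
    Matrix (Σ j, κ j) ι (MvPowerSeries ι K) :=
  Matrix.of fun x a => pderiv K a (Φ.τ x.1 x.2)

private theorem exists_inverse {T : EquivGW X} (Φ : FixedLocus T K κ) :
    ∃ W : Matrix ι (Σ j, κ j) (MvPowerSeries ι K), pmat Φ * W = 1 ∧ W * pmat Φ = 1 := by
  obtain ⟨V, h1, -⟩ := Φ.iso
  obtain ⟨W, hW⟩ := exists_right_inverse (pmat Φ) V (by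
    rw [← h1]
    rfl)
  refine ⟨W, hW, (Matrix.mul_eq_one_comm_of_card_eq _ _ _ ?_).1 hW⟩
  rw [card_eq Φ, Fintype.card_sigma]

theorem srk_QHT {T : EquivGW X} (Φ : FixedLocus T K κ) :
    srk T.QHT = ∑ j, coords (Φ.F j) := by
  obtain ⟨W, h1, h2⟩ := exists_inverse Φ
  have h3 := srk_of_iso (T.QHT.map (MvPowerSeries.map Φ.ev)) (fun j => (Φ.F j).map (psi Φ j))
    (pmat Φ) W h1 h2 (fun j a b k => by
      refine (Φ.mul j a b k).trans ?_
      refine Finset.sum_congr rfl fun e _ => Finset.sum_congr rfl fun f _ => ?_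
      have h4 : ((Φ.F j).map (psi Φ j)).m e f k = ((Φ.F j).m e f k).subst (Φ.τ j) :=
        psi_apply Φ j _
      rw [h4]
      rfl)
  rw [srk_map_of_injective T.QHT (MvPowerSeries.map Φ.ev) (map_injective_aux Φ.ev Φ.ev_inj)] at h3
  rw [h3]
  refine Finset.sum_congr rfl fun j _ => ?_
  rw [coords_eq_srk, srk_map_of_injective (Φ.F j) (psi Φ j) (psi_injective Φ j)]

theorem traceRank_eq (T : TorusGW X) (Φ : FixedLocus T.toEquivGW K κ) :
    traceRank X = ∑ j, coords (Φ.F j) := by
  rw [traceRank_eq_srk, ← T.srk_eq, srk_QHT Φ]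

theorem isGenericallySemisimple_iff (T : TorusGW X) (Φ : FixedLocus T.toEquivGW K κ) :
    X.IsGenericallySemisimple ↔ ∀ j, Semisimple (Φ.F j) := by
  have := charZero Φ
  rw [← traceRank_eq_card_iff, traceRank_eq T Φ, card_eq Φ,
    Finset.sum_eq_sum_iff_of_le fun j _ => coords_le (Φ.F j)]
  constructor
  · intro h j
    exact (semisimple_iff (Φ.F j)).2 (h j (Finset.mem_univ j))
  · intro h j _
    exact (semisimple_iff (Φ.F j)).1 (h j)

theorem pointsOrCurves (T : TorusGW X) (Φ : FixedLocus T.toEquivGW K κ) (c : J → Option ℕ)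
    (hc : ∀ j, IsPointOrCurve (Φ.F j) (c j)) :
    traceRank X = ∑ j, count (c j) ∧
    (X.IsGenericallySemisimple ↔ ∀ j g, c j ≠ some (g + 1)) ∧
    ∀ n : J → ℕ, (X.IsGenericallySemisimple ↔ ∀ p q, p ≠ q → hodgeX c n p q = 0) := by
  have := charZero Φ
  have h1 : X.IsGenericallySemisimple ↔ ∀ j g, c j ≠ some (g + 1) := by
    rw [isGenericallySemisimple_iff T Φ]
    exact forall_congr' fun j => semisimple_iff_of_isPointOrCurve (Φ.F j) (c j) (hc j)
  refine ⟨?_, h1, fun n => ?_⟩
  · rw [traceRank_eq T Φ]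
    exact Finset.sum_congr rfl fun j _ => coords_of_isPointOrCurve (Φ.F j) (c j) (hc j)
  · rw [h1, hodgeX_iff]

end FixedLocus

end Pool.Agent.SFX
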